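import Pool.Agent.PFD.StmtsD3
import Pool.Agent.Helper41_PFC.EIG

/-!
# Squad PFD, row COO (block D3): coordinates of the group algebra of `V`
-/

set_option autoImplicit false

open scoped BigOperators

noncomputable section

namespace Pool.Agent.PFD.H48

open Pool.Agent.PFD Pool.Agent.PFC.B3 Pool.Agent.PFC.B3.H41 Module
open Pool.Agent.PFD.D3

theorem acV_ac {F V E : Type} [Field F] [CommGroup V] [Group E] (φ : E →* MulAut V) (e : E)
    (z : MonoidAlgebra F V) : acV F φ e z = ac F φ e z := by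
  induction z using MonoidAlgebra.induction_on with
  | of v =>
    rw [ac_of]
    exact acV_single F φ e v 1
  | add x y hx hy => rw [map_add, map_add, hx, hy]
  | smul r x hx => rw [map_smul, map_smul, hx]

/-- the restriction of a representation to a stable subspace -/
def resT {F E M : Type} [Field F] [Group E] [AddCommGroup M] [Module F M]
    (T : E →* Module.End F M) (C : Submodule F M) (h : ∀ e, ∀ u ∈ C, T e u ∈ C) :
    E →* Module.End F C where
  toFun := fun e => (T e).restrict (h e)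
  map_one' := by
    apply LinearMap.ext
    intro u
    apply Subtype.ext
    show T 1 (u : M) = u
    rw [map_one]
    rfl
  map_mul' := by
    intro e e'
    apply LinearMap.ext
    intro u
    apply Subtype.ext
    show T (e * e') (u : M) = T e (T e' (u : M))
    rw [map_mul]
    rfl

theorem coo_mat {F E M : Type} [Field F] [Group E] [AddCommGroup M] [Module F M]
    (T : E →* Module.End F M) (C : Submodule F M) (h : ∀ e, ∀ u ∈ C, T e u ∈ C) {J : Type}
    [Fintype J] [DecidableEq J] (b : Basis J F C) :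
    ∃ D : E →* Matrix J J F, ∀ e j, T e (b j : M) = ∑ k, D e k j • (b k : M) := by
  refine ⟨((LinearMap.toMatrixAlgEquiv b).toAlgHom.toMonoidHom).comp (resT T C h), ?_⟩
  intro e j
  have h1 : ((resT T C h e (b j) : C) : M) = ∑ k, (b.repr (resT T C h e (b j))) k • (b k : M) := by
    conv_lhs => rw [← b.sum_repr (resT T C h e (b j))]
    rw [Submodule.coe_sum]
    rfl
  have h2 : ((resT T C h e (b j) : C) : M) = T e (b j : M) := rfl
  rw [← h2, h1]
  refine Finset.sum_congr rfl fun k _ => ?_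
  refine congrArg (fun t : F => t • (b k : M)) ?_
  exact (LinearMap.toMatrixAlgEquiv_apply b (resT T C h e) k j).symm

theorem coo (hAvg : AvgStmt) (hSpn : SpnStmt) (hCnt : CntStmt) (hNky : NkyStmt) : CooStmt := by
  intro ℓ _ F V E _ _ _ _ _ _ φ hVp hVn hE
  classical
  have hℓ : ℓ.Prime := Fact.out
  have : Fintype V := Fintype.ofFinite V
  -- the exponent
  obtain ⟨m, hm⟩ : ∃ m : ℕ, ∀ v : V, v ^ ℓ ^ m = 1 := by
    obtain ⟨m, hm⟩ := (IsPGroup.iff_card).1 hVp
    refine ⟨m, fun v => ?_⟩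
    rw [← hm]
    exact pow_card_eq_one'
  have hUst : ∀ a, ∀ e, ∀ u ∈ Ua F V ℓ a, acT φ e u ∈ Ua F V ℓ a :=
    fun a e u hu => Ua_stable φ ℓ a e hu
  have hIst : ∀ a, ∀ e, ∀ u ∈ Ia F V ℓ a, acT φ e u ∈ Ia F V ℓ a :=
    fun a e u hu => Ia_stable φ ℓ a e hu
  -- the complements
  have hC : ∀ a : ℕ, ∃ C : Submodule F (MonoidAlgebra F V), (∀ e, ∀ u ∈ C, acT φ e u ∈ C) ∧
      C ≤ Ia F V ℓ (a + 1) ∧ C ⊔ Ua F V ℓ a = Ua F V ℓ (a + 1) ∧ C ⊓ Ua F V ℓ a = ⊥ := by
    intro a
    obtain ⟨U', hU'⟩ := Submodule.exists_isCompl (Ua F V ℓ a ⊓ Ia F V ℓ (a + 1))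
    obtain ⟨W, hW, -, hWs⟩ := hAvg F Empty E (MonoidAlgebra F V) (fun i => i.elim) (acT φ)
      (fun i => i.elim) hE (fun i => i.elim) _ U' hU' (fun i => i.elim) (fun i => i.elim)
      (fun e u hu => ⟨hUst a e u hu.1, hIst (a + 1) e u hu.2⟩)
    have hsup : (Ua F V ℓ a ⊓ Ia F V ℓ (a + 1)) ⊔ (W ⊓ Ia F V ℓ (a + 1)) = Ia F V ℓ (a + 1) := by
      rw [← sup_inf_assoc_of_le W
        (inf_le_right : Ua F V ℓ a ⊓ Ia F V ℓ (a + 1) ≤ Ia F V ℓ (a + 1)), hW.sup_eq_top,
        top_inf_eq]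
    refine ⟨W ⊓ Ia F V ℓ (a + 1), fun e u hu => ⟨hWs e u hu.1, hIst (a + 1) e u hu.2⟩,
      inf_le_right, ?_, ?_⟩
    · rw [Ua_succ]
      apply le_antisymm
      · exact sup_le_sup_right inf_le_right _
      · refine sup_le ?_ le_sup_right
        conv_lhs => rw [← hsup]
        exact sup_le (inf_le_left.trans le_sup_right) le_sup_left
    · have h1 : W ⊓ Ia F V ℓ (a + 1) ⊓ Ua F V ℓ a =
          (Ua F V ℓ a ⊓ Ia F V ℓ (a + 1)) ⊓ W := by
        rw [inf_assoc, inf_comm (Ia F V ℓ (a + 1)), inf_comm]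
      rw [h1, hW.inf_eq_bot]
  choose C hCs hCI hCU hCd using hC
  -- the dimensions
  let u : ℕ → ℕ := fun a => finrank F (Ua F V ℓ a)
  have hu : ∀ a, u a ≤ u (a + 1) := fun a => Submodule.finrank_mono (Ua_mono ℓ a)
  have hdim : ∀ a, finrank F (C a) = u (a + 1) - u a := by
    intro a
    have h1 := Submodule.finrank_sup_add_finrank_inf_eq (C a) (Ua F V ℓ a)
    rw [hCU, hCd, finrank_bot] at h1
    show finrank F (C a) = finrank F (Ua F V ℓ (a + 1)) - finrank F (Ua F V ℓ a)
    omega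
  -- the vectors
  let bas : ∀ a : ℕ, Basis (Fin (finrank F (C a))) F (C a) := fun a => Module.finBasis F (C a)
  let I : Type := Σ a : Fin m, Fin (finrank F (C a))
  let A : I → ℕ := fun i => (i.1 : ℕ) + 1
  let X : I → MonoidAlgebra F V := fun i => (bas i.1 i.2 : MonoidAlgebra F V)
  have hXC : ∀ i : I, X i ∈ C i.1 := fun i => (bas i.1 i.2).2
  have hX0 : ∀ i, X i ^ ℓ ^ A i = 0 := fun i => Ia_pow ℓ (A i) (hCI _ (hXC i))
  have hbsp : ∀ a : ℕ, ∀ z ∈ C a, z ∈ Submodule.span F
      (Set.range fun k => (bas a k : MonoidAlgebra F V)) := by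
    intro a z hz
    have h1 : z = ∑ k, (bas a).repr ⟨z, hz⟩ k • (bas a k : MonoidAlgebra F V) := by
      have h2 := congrArg Subtype.val ((bas a).sum_repr ⟨z, hz⟩)
      rw [Submodule.coe_sum] at h2
      exact h2.symm
    rw [h1]
    exact Submodule.sum_mem _ fun k _ => Submodule.smul_mem _ _
      (Submodule.subset_span ⟨k, rfl⟩)
  -- spanning
  have hXspan : ∀ a, a ≤ m → Ua F V ℓ a ≤ Submodule.span F (Set.range X) ⊔ Au2 F V := by
    intro a
    induction a with
    | zero =>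
      intro _
      rw [Ua_zero]
      exact le_sup_right
    | succ a ih =>
      intro ha
      rw [← hCU a]
      refine sup_le ?_ (ih (by omega))
      refine le_trans ?_ le_sup_left
      intro z hz
      refine Submodule.span_mono ?_ (hbsp a z hz)
      rintro _ ⟨k, rfl⟩
      exact ⟨⟨⟨a, ha⟩, k⟩, rfl⟩
  have hAu : Ua F V ℓ m = Au F V := by
    apply le_antisymm (hSpn ℓ F V m).1
    refine le_trans ?_ (le_sup_left : Ia F V ℓ m ≤ Ua F V ℓ m)
    refine Submodule.span_mono ?_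
    rintro _ ⟨v, rfl⟩
    exact ⟨v, hm v, rfl⟩
  have hspan : Submodule.span F (Set.range X) ⊔ Au2 F V = Au F V := by
    apply le_antisymm
    · refine sup_le ?_ ?_
      · rw [Submodule.span_le]
        rintro _ ⟨i, rfl⟩
        exact (hSpn ℓ F V (A i)).1 ((le_sup_left : Ia F V ℓ (A i) ≤ Ua F V ℓ (A i))
          (hCI _ (hXC i)))
      · rw [← Ua_zero ℓ]
        exact (hSpn ℓ F V 0).1
    · rw [← hAu]
      exact hXspan m le_rfl
  have hqpos : ∀ i : I, 0 < ℓ ^ A i := fun i => pow_pos hℓ.pos _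
  have htop := hNky ℓ F V I (fun i => ℓ ^ A i) X hVp hqpos hspan hX0
  -- counting
  have hsumA : ∑ i : I, A i = ∑ a ∈ Finset.range m, (u m - u a) := by
    rw [← abel_sum u hu m, Fintype.sum_sigma, ← Fin.sum_univ_eq_sum_range
      (fun a => (a + 1) * (u (a + 1) - u a)) m]
    refine Finset.sum_congr rfl ?_
    intro a _
    show ∑ _k : Fin (finrank F (C a)), ((a : ℕ) + 1) = _
    rw [Finset.sum_const, Finset.card_univ, Fintype.card_fin, smul_eq_mul, mul_comm, hdim]
  have hcard : Fintype.card (∀ i : I, Fin (ℓ ^ A i)) = ℓ ^ ∑ i : I, A i := by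
    rw [Fintype.card_pi]
    simp only [Fintype.card_fin]
    rw [Finset.prod_pow_eq_pow_sum]
  have hle : Fintype.card (∀ i : I, Fin (ℓ ^ A i)) ≤ Nat.card V := by
    rw [hcard, hsumA, ← Finset.prod_pow_eq_pow_sum, ← hCnt ℓ V m hm]
    refine Finset.prod_le_prod' ?_
    intro a _
    have h1 := (hSpn ℓ F V a).2
    rw [← hAu] at h1
    exact h1
  have hfin : finrank F (MonoidAlgebra F V) = Nat.card V := by
    rw [Module.finrank_eq_card_basis (MonoidAlgebra.basis V F), Nat.card_eq_fintype_card]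
  have hge : finrank F (MonoidAlgebra F V) ≤ Fintype.card (∀ i : I, Fin (ℓ ^ A i)) := by
    have h1 := finrank_range_le_card (R := F)
      (fun α : ∀ i : I, Fin (ℓ ^ A i) => ∏ i, X i ^ (α i : ℕ))
    rw [Set.finrank, htop, finrank_top] at h1
    exact h1
  have hceq : Fintype.card (∀ i : I, Fin (ℓ ^ A i)) = finrank F (MonoidAlgebra F V) := by
    omega
  -- the matrices
  have hD : ∀ a : ℕ, ∃ D : E →* Matrix (Fin (finrank F (C a))) (Fin (finrank F (C a))) F,
      ∀ e j, acT φ e (bas a j : MonoidAlgebra F V) =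
        ∑ k, D e k j • (bas a k : MonoidAlgebra F V) :=
    fun a => coo_mat (acT φ) (C a) (hCs a) (bas a)
  choose D hD using hD
  refine ⟨Fin m, inferInstance, fun b => Fin (finrank F (C b)), fun b => inferInstance,
    fun b => inferInstance, ?_, ⟨⟨fun b => (b : ℕ) + 1, fun b => Nat.succ_le_succ (Nat.zero_le _),
    fun b => D b, X, hX0, ?_, basisOfTopLeSpanOfCardEqFinrank _ htop.ge hceq, ?_⟩⟩⟩
  · by_contra hemp
    rw [not_nonempty_iff] at hemp
    have hemp' : IsEmpty I := hemp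
    have h1 : Fintype.card (∀ i : I, Fin (ℓ ^ A i)) = 1 := by
      rw [hcard, Finset.univ_eq_empty, Finset.sum_empty, pow_zero]
    rw [hceq, hfin] at h1
    have h2 := (Nat.card_eq_one_iff_unique.1 h1).1
    exact not_subsingleton V h2
  · intro e b j
    rw [acV_ac]
    exact hD b e j
  · intro α
    rw [coe_basisOfTopLeSpanOfCardEqFinrank]

end Pool.Agent.PFD.H48
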