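import Pool.Agent.PFD.StmtsD2c

/-!
# Squad PFD, row LAX (block D2b): the lift `A1`
-/

set_option autoImplicit false

open scoped BigOperators

noncomputable section

namespace Pool.Agent.PFD.D2b.H48

open MulOpposite
open Pool.Agent.PFC.B1 (BiM FS Sep)
open Pool.Agent.PFD.D2 Pool.Agent.PFD.D2b

theorem kappa_pi {R F : Type} [CommRing R] [Field F] (c : Cdv R F) : c.κ c.π = 0 :=
  (c.ker c.π).2 ⟨1, (mul_one _).symm⟩

theorem fib_pi {R F A' A : Type} [CommRing R] [Field F] {c : Cdv R F} [Ring A'] [Algebra R A']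
    [Ring A] [Algebra F A] (fb : FibG A' A c) (y : A') : fb.q (c.π • y) = 0 := by
  rw [Algebra.smul_def, map_mul, fb.sc, kappa_pi, map_zero, zero_mul]

theorem lax (hHGR : HgrStmt) (hXCL : XclStmt) : LaxStmt := by
  intro R F Γ Γ0 A X0 W I Ω A1 _ _ c _ _ _ _ _ _ _ _ _ _ _ _ _ _ _ D f BX hX B0 sp0 df ctr
  obtain ⟨aX, haX⟩ := hHGR R Γ W I Ω D BX hX
  refine ⟨{ fb := df.fb, j := df.sp.j, pr := df.sp.pr, pr_j := df.sp.pr_j, pr_l := df.sp.pr_l,
            pr_r := df.sp.pr_r, cj := df.cj, cp := df.cp,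
            a := df.sp.p ∘ₗ aX ∘ₗ df.sp.i, a_id := ?_, cl := ?_ }⟩
  · intro x
    have key : ∀ s t, df.sp.j (D.fs.b s) * (df.sp.p ∘ₗ aX ∘ₗ df.sp.i)
        (df.sp.j (D.fs.b' s) * x * df.sp.j (D.fs.b t)) * df.sp.j (D.fs.b' t) =
        df.sp.p (BX.lm (D.fs.b s) (BX.rm (op (D.fs.b' t)) (aX (BX.lm (D.fs.b' s)
        (BX.rm (op (D.fs.b t)) (df.sp.i x)))))) := by
      intro s t
      rw [df.sp.p1, df.sp.p2, LinearMap.comp_apply, LinearMap.comp_apply, df.sp.i2, df.sp.i1,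
        BX.comm, mul_assoc]
    rw [Finset.sum_congr rfl fun s _ => Finset.sum_congr rfl fun t _ => key s t]
    have h2 := congrArg df.sp.p (haX (df.sp.i x))
    rw [map_smul, df.sp.ip, map_sum] at h2
    rw [← h2]
    refine Finset.sum_congr rfl fun s _ => ?_
    rw [map_sum]
  · intro x0 hx0
    have hc : ∀ γ, sp0.pr x0 * γ = γ * sp0.pr x0 := by
      intro γ
      rw [← sp0.pr_l, ← sp0.pr_r, hx0]
    obtain ⟨ζ, hζ, hζq⟩ := ctr _ hc
    obtain ⟨a1, ha1⟩ := df.fb.surj x0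
    have hcom : ∀ γ, ∃ y, BX.lm γ (df.sp.i a1) - BX.rm (op γ) (df.sp.i a1) = c.π • y := by
      intro γ
      have h0 : df.fb.q (df.sp.j γ * a1 - a1 * df.sp.j γ) = 0 := by
        rw [map_sub, map_mul, map_mul, df.cj, ha1, hx0, sub_self]
      obtain ⟨y, hy⟩ := df.fb.ker _ h0
      refine ⟨df.sp.i y, ?_⟩
      rw [← df.sp.i1, ← df.sp.i2, ← map_sub, hy, map_smul]
    obtain ⟨x', hx', y, hy⟩ := hXCL R Γ W I Ω D BX c.π hX (df.sp.i a1) hcom
    refine ⟨df.sp.j ζ + df.sp.p x', ?_, ?_⟩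
    · intro γ
      rw [mul_add, add_mul, ← map_mul, ← map_mul, hζ, ← df.sp.p1, ← df.sp.p2, hx']
    · have e : x' = df.sp.i a1 + c.π • y := by
        rw [← hy]; abel
      rw [map_add, df.cj, hζq, e, map_add, map_smul, df.sp.ip, map_add, fib_pi, map_sub, df.cj,
        ← df.cp, ha1]
      abel

end Pool.Agent.PFD.D2b.H48
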