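import Pool.Agent.PFD.StmtsD4

/-!
# Squad PFD, row ZPN (block D4): central elements which are traces from `1` are nilpotent
-/

set_option autoImplicit false

open scoped BigOperators TensorProduct

noncomputable section

namespace Pool.Agent.PFD.D4.H48

open Pool.Agent.PFC.B1 (BiM FS Sep Split)
open Pool.Agent.PFD Pool.Agent.PFD.D2 Pool.Agent.PFD.D2b Pool.Agent.PFD.D4

/-- the linear map `a ↦ s * a * b` -/
def sand {K A : Type} [Field K] [Ring A] [Algebra K A] (s b : A) : A →ₗ[K] A :=
  (LinearMap.mulRight K b) ∘ₗ (LinearMap.mulLeft K s)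

theorem sand_apply {K A : Type} [Field K] [Ring A] [Algebra K A] (s b a : A) :
    sand (K := K) s b a = s * a * b := rfl

theorem sand_pow {K A : Type} [Field K] [Ring A] [Algebra K A] (s b : A) (m : ℕ) (a : A) :
    (sand (K := K) s b ^ m) a = s ^ m * a * b ^ m := by
  induction m generalizing a with
  | zero => simp
  | succ m ih =>
    rw [pow_succ, Module.End.mul_apply, sand_apply, ih, pow_succ, pow_succ']
    noncomm_ring

theorem fs_zero {K A J : Type} [Field K] [Ring A] [Algebra K A] [Fintype J] (d : FS K A J)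
    (x : A) (h : ∀ s, d.lam (x * s) = 0) : x = 0 := by
  rw [← d.h2 x]
  refine Finset.sum_eq_zero fun i _ => ?_
  rw [h, zero_smul]

theorem zpn (hIDM : IdmStmt) (hTFS : TfsStmt) (hTTR : TtrStmt) (hHSV : HsvStmt)
    (hRTC : RtcStmt) : ZpnStmt := by
  intro K B A I J N _ _ _ _ _ _ _ _ _ _ _ _ D a
  by_contra hn
  obtain ⟨-, -, -, hT4, hT5⟩ := hTTR K B A I J N D
  have hxc : ∀ a, D.TA a ∈ Subalgebra.center K A := fun a =>
    Subalgebra.mem_center_iff.2 fun z => hT5 a z
  let x0 : Subalgebra.center K A := ⟨D.TA a, hxc a⟩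
  have hn0 : ¬ IsNilpotent x0 := by
    rintro ⟨m, hm⟩
    exact hn ⟨m, by simpa [x0] using congrArg Subtype.val hm⟩
  obtain ⟨e, y, hee, he0, hexy, hek⟩ := hIDM K (Subalgebra.center K A) x0 hn0
  have hcen : ∀ z : Subalgebra.center K A, ∀ b : A, b * (z : A) = (z : A) * b := fun z =>
    Subalgebra.mem_center_iff.1 z.2
  have hee' : (e : A) * (e : A) = e := by
    have := congrArg Subtype.val hee
    simpa using this
  have he0' : (e : A) ≠ 0 := fun h => he0 (Subtype.ext h)
  have hTb : (e : A) = D.TA ((y : A) * a) := by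
    rw [← hT4 a y fun b => hcen y b]
    have := congrArg Subtype.val hexy
    rw [this]
    show D.TA a * (y : A) = y * D.TA a
    exact hcen y _
  have h1 : ∀ ν : A, (∀ b, b * ν = ν * b) → IsNilpotent ν → ν * (e : A) = ν → ν = 0 := by
    intro ν hc hnil hνe
    refine fs_zero D.d ν fun s => ?_
    have e1 : D.d.lam (ν * s) = LinearMap.trace K A (sand (K := K) (s * ν) ((y : A) * a)) := by
      rw [hTFS K A J D.d]
      conv_lhs => rw [← hνe, hTb]
      rw [KL.TA, Finset.mul_sum, Finset.sum_mul, map_sum]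
      refine Finset.sum_congr rfl fun p _ => ?_
      rw [sand_apply]
      have e2 : ν * (D.d.b p * ((y : A) * a) * D.d.b' p) * s =
          (ν * D.d.b p * ((y : A) * a)) * (D.d.b' p * s) := by noncomm_ring
      rw [e2, D.ds]
      congr 1
      noncomm_ring
    rw [e1]
    obtain ⟨m, hm⟩ := hnil
    have hnT : IsNilpotent (sand (K := K) (s * ν) ((y : A) * a)) := by
      refine ⟨m, ?_⟩
      apply LinearMap.ext
      intro t
      rw [sand_pow, (show Commute s ν from hc s).mul_pow, hm, mul_zero, zero_mul, zero_mul]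
      rfl
    exact (LinearMap.isNilpotent_trace_of_isNilpotent hnT).eq_zero
  have h2 : ∀ z : A, (∀ b, b * z = z * b) → ∃ k : K, (e : A) * z = k • (e : A) := by
    intro z hz
    obtain ⟨k, hk⟩ := hek ⟨z, Subalgebra.mem_center_iff.2 hz⟩
    refine ⟨k, ?_⟩
    have hn' : IsNilpotent ((e : A) * z - k • (e : A)) := by
      obtain ⟨m, hm⟩ := hk
      refine ⟨m, ?_⟩
      have h5 := congrArg Subtype.val hm
      rw [SubmonoidClass.coe_pow] at h5
      exact h5
    have := h1 ((e : A) * z - k • (e : A)) ?_ hn' ?_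
    · exact sub_eq_zero.1 this
    · intro b
      rw [mul_sub, sub_mul, mul_smul_comm, smul_mul_assoc, hcen e b, ← mul_assoc, hcen e b,
        mul_assoc, mul_assoc, hz]
    · rw [sub_mul, smul_mul_assoc, hee', mul_assoc, ← hz, ← mul_assoc, hee']
  -- the trace of left multiplication by `e`
  have h3 : D.d.lam (e : A) ≠ 0 := by
    intro h0
    obtain ⟨k, hk⟩ := h2 (D.TA 1) fun b => hT5 1 b
    have etr : LinearMap.trace K A (LinearMap.mulLeft K (e : A)) = 0 := by
      rw [hTFS K A J D.d]
      have : ∀ p, D.d.lam (D.d.b' p * (LinearMap.mulLeft K (e : A)) (D.d.b p)) =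
          D.d.lam ((e : A) * (D.d.b p * 1 * D.d.b' p)) := by
        intro p
        rw [LinearMap.mulLeft_apply, D.ds, mul_one, mul_assoc]
      rw [Finset.sum_congr rfl fun p _ => this p, ← map_sum, ← Finset.mul_sum]
      show D.d.lam ((e : A) * D.TA 1) = 0
      rw [hk, map_smul, h0, smul_zero]
    have hp : LinearMap.IsProj (LinearMap.range (LinearMap.mulLeft K (e : A)))
        (LinearMap.mulLeft K (e : A)) := by
      refine ⟨fun x => LinearMap.mem_range_self _ _, ?_⟩
      rintro _ ⟨x, rfl⟩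
      rw [LinearMap.mulLeft_apply, LinearMap.mulLeft_apply, ← mul_assoc, hee']
    have htr := hp.trace
    rw [etr] at htr
    have hfr : Module.finrank K (LinearMap.range (LinearMap.mulLeft K (e : A))) = 0 := by
      exact_mod_cast htr.symm
    rw [Submodule.finrank_eq_zero] at hfr
    apply he0'
    have : (LinearMap.mulLeft K (e : A)) 1 ∈ LinearMap.range (LinearMap.mulLeft K (e : A)) :=
      LinearMap.mem_range_self _ _
    rw [hfr, Submodule.mem_bot, LinearMap.mulLeft_apply, mul_one] at this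
    exact this
  -- the relative trace of `u'`
  have hu'c : ∀ b, D.u' * b = b * D.u' := by
    intro b
    have hu : D.u' * D.u = 1 := by rw [← D.uc, D.uu]
    calc D.u' * b = D.u' * b * (D.u * D.u') := by rw [D.uu, mul_one]
      _ = D.u' * (b * D.u) * D.u' := by rw [← mul_assoc, mul_assoc D.u' b D.u]
      _ = D.u' * (D.u * b) * D.u' := by rw [D.uc]
      _ = b * D.u' := by rw [← mul_assoc, hu, one_mul]
  obtain ⟨hR1, -, -⟩ := hRTC K B A N D.sp.j D.sp.pr D.s
  have hy0 : ∀ b, b * D.s.rt (D.sp.j D.u') = D.s.rt (D.sp.j D.u') * b :=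
    hR1 (D.sp.j D.u') fun γ => by rw [← map_mul, ← map_mul, hu'c]
  obtain ⟨k, hk⟩ := h2 _ hy0
  have hk0 : k ≠ 0 := by
    rintro rfl
    rw [zero_smul] at hk
    obtain ⟨i, hi⟩ := D.unu
    apply he0'
    have := congrArg (fun t => t * (↑i⁻¹ : A)) hk
    simpa [← hi, mul_assoc] using this
  have h4 := hHSV K B A I J N D (e : A) hee'
  rw [← hy0, hk, map_smul, smul_eq_mul] at h4
  rcases mul_eq_zero.1 h4 with h | h
  · exact hk0 h
  · exact h3 h

end Pool.Agent.PFD.D4.H48
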