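import Pool.Agent.PFD.StmtsD1

/-!
# Squad PFD, row RES (block D1): resolution of the 4-gon
-/

set_option autoImplicit false

open scoped BigOperators

noncomputable section

namespace Pool.Agent.PFD.H48

open Pool.Agent.PFC.B1 Pool.Agent.PFD

section bil
variable {R M M' X : Type} [CommRing R] [AddCommGroup M] [Module R M]
    [AddCommGroup M'] [Module R M'] [AddCommGroup X] [Module R X]

theorem Bil.lin1 {F : M → M' → X} (h : Bil R F) {K : Type} [Fintype K] (r : K → R) (z : K → M)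
    (b : M') : F (∑ k, r k • z k) b = ∑ k, r k • F (z k) b := by
  obtain ⟨L, hL⟩ : ∃ L : M →ₗ[R] X, ∀ a, L a = F a b :=
    ⟨{ toFun := fun a => F a b
       map_add' := fun a a' => h.a1 a a' b
       map_smul' := fun r a => h.s1 r a b }, fun a => rfl⟩
  rw [← hL, map_sum]
  exact Finset.sum_congr rfl fun k _ => by rw [map_smul, hL]

theorem Bil.lin2 {F : M → M' → X} (h : Bil R F) {K : Type} [Fintype K] (r : K → R) (z : K → M')
    (a : M) : F a (∑ k, r k • z k) = ∑ k, r k • F a (z k) := by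
  obtain ⟨L, hL⟩ : ∃ L : M' →ₗ[R] X, ∀ b, L b = F a b :=
    ⟨{ toFun := fun b => F a b
       map_add' := fun b b' => h.a2 a b b'
       map_smul' := fun r b => h.s2 r a b }, fun b => rfl⟩
  rw [← hL, map_sum]
  exact Finset.sum_congr rfl fun k _ => by rw [map_smul, hL]

theorem Bil.sum {K : Type} [Fintype K] {F : K → M → M' → X} (h : ∀ k, Bil R (F k)) :
    Bil R (fun a b => ∑ k, F k a b) := by
  constructor
  · intro a a' b
    rw [← Finset.sum_add_distrib]
    exact Finset.sum_congr rfl fun k _ => (h k).a1 a a' b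
  · intro a b b'
    rw [← Finset.sum_add_distrib]
    exact Finset.sum_congr rfl fun k _ => (h k).a2 a b b'
  · intro r a b
    rw [Finset.smul_sum]
    exact Finset.sum_congr rfl fun k _ => (h k).s1 r a b
  · intro r a b
    rw [Finset.smul_sum]
    exact Finset.sum_congr rfl fun k _ => (h k).s2 r a b

end bil

section rules
variable {R B I X : Type} [CommRing R] [Ring B] [Algebra R B] [Fintype I] [AddCommGroup X]
  [Module R X]

/-- rule M2 -/
theorem m2 (c : FS R B I) (cs : ∀ x y, c.lam (x * y) = c.lam (y * x)) {F : B → B → X}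
    (hF : Bil R F) (x : B) : ∑ i, F (c.b i * x) (c.b' i) = ∑ i, F (c.b i) (x * c.b' i) := by
  calc ∑ i, F (c.b i * x) (c.b' i)
      = ∑ i, ∑ k, c.lam (c.b' k * (c.b i * x)) • F (c.b k) (c.b' i) := by
        refine Finset.sum_congr rfl fun i _ => ?_
        conv_lhs => rw [← c.h1 (c.b i * x)]
        exact Bil.lin1 hF _ _ _
    _ = ∑ k, ∑ i, c.lam (c.b' k * (c.b i * x)) • F (c.b k) (c.b' i) := Finset.sum_comm
    _ = ∑ k, F (c.b k) (x * c.b' k) := by
        refine Finset.sum_congr rfl fun k _ => ?_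
        conv_rhs => rw [← c.h2 (x * c.b' k)]
        rw [Bil.lin2 hF]
        refine Finset.sum_congr rfl fun i _ => ?_
        rw [← mul_assoc, cs, ← mul_assoc]

/-- rule M3 -/
theorem m3 (c : FS R B I) (cs : ∀ x y, c.lam (x * y) = c.lam (y * x)) {F : B → B → X}
    (hF : Bil R F) : ∑ i, F (c.b i) (c.b' i) = ∑ i, F (c.b' i) (c.b i) := by
  calc ∑ i, F (c.b i) (c.b' i)
      = ∑ i, ∑ k, c.lam (c.b i * c.b k) • F (c.b' k) (c.b' i) := by
        refine Finset.sum_congr rfl fun i _ => ?_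
        conv_lhs => rw [← c.h2 (c.b i)]
        exact Bil.lin1 hF _ _ _
    _ = ∑ k, ∑ i, c.lam (c.b i * c.b k) • F (c.b' k) (c.b' i) := Finset.sum_comm
    _ = ∑ k, F (c.b' k) (c.b k) := by
        refine Finset.sum_congr rfl fun k _ => ?_
        conv_rhs => rw [← c.h2 (c.b k)]
        rw [Bil.lin2 hF]
        refine Finset.sum_congr rfl fun i _ => ?_
        rw [cs]

end rules

section reorder
variable {X : Type} [AddCommMonoid X] {I N : Type} [Fintype I] [Fintype N]

theorem ord1 (g : I → I → I → I → N → I → I → X) :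
    ∑ a, ∑ b, ∑ c, ∑ d, ∑ m, ∑ i, ∑ l, g a b c d m i l =
      ∑ m, ∑ i, ∑ l, ∑ a, ∑ c, ∑ b, ∑ d, g a b c d m i l := by
  have h : ∑ x : I × I × I × I × N × I × I, g x.1 x.2.1 x.2.2.1 x.2.2.2.1 x.2.2.2.2.1
        x.2.2.2.2.2.1 x.2.2.2.2.2.2 =
      ∑ y : N × I × I × I × I × I × I, g y.2.2.2.1 y.2.2.2.2.2.1 y.2.2.2.2.1 y.2.2.2.2.2.2 y.1
        y.2.1 y.2.2.1 :=
    Fintype.sum_equiv
      { toFun := fun x => (x.2.2.2.2.1, x.2.2.2.2.2.1, x.2.2.2.2.2.2, x.1, x.2.2.1, x.2.1,
          x.2.2.2.1)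
        invFun := fun y => (y.2.2.2.1, y.2.2.2.2.2.1, y.2.2.2.2.1, y.2.2.2.2.2.2, y.1, y.2.1,
          y.2.2.1)
        left_inv := fun x => rfl
        right_inv := fun y => rfl } _ _ fun x => rfl
  simpa only [Fintype.sum_prod_type] using h

theorem ord2 (g : I → I → I → I → I → I → X) :
    ∑ i, ∑ l, ∑ a, ∑ c, ∑ b, ∑ d, g i l a c b d =
      ∑ a, ∑ b, ∑ l, ∑ c, ∑ d, ∑ i, g i l a c b d := by
  have h : ∑ x : I × I × I × I × I × I, g x.1 x.2.1 x.2.2.1 x.2.2.2.1 x.2.2.2.2.1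
        x.2.2.2.2.2 =
      ∑ y : I × I × I × I × I × I, g y.2.2.2.2.2 y.2.2.1 y.1 y.2.2.2.1 y.2.1 y.2.2.2.2.1 :=
    Fintype.sum_equiv
      { toFun := fun x => (x.2.2.1, x.2.2.2.2.1, x.2.1, x.2.2.2.1, x.2.2.2.2.2, x.1)
        invFun := fun y => (y.2.2.2.2.2, y.2.2.1, y.1, y.2.2.2.1, y.2.1, y.2.2.2.2.1)
        left_inv := fun x => rfl
        right_inv := fun y => rfl } _ _ fun x => rfl
  simpa only [Fintype.sum_prod_type] using h

end reorder

section main
variable {R B A I J N : Type} [CommRing R] [Ring B] [Algebra R B] [Ring A] [Algebra R A]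
    [Fintype I] [Fintype J] [Fintype N]

theorem T_comm (D : Net R B A I J N) (a b : A) : D.T (a * b) = D.T (b * a) := D.ds a b

/-- `T(a b)` as a sum of a `B`-part and a `P`-part -/
theorem T_split (D : Net R B A I J N) (a b : A) :
    D.T (a * b) = (∑ k, D.T (a * D.u k) * D.T (D.u' k * b)) +
      ∑ m, ∑ i, ∑ l, D.T (a * (D.u i * D.x m * D.u' l)) * D.T (D.u l * D.y m * D.u' i * b) := by
  obtain ⟨L, hL⟩ : ∃ L : A →ₗ[R] R, ∀ z, L z = D.T (a * z) :=
    ⟨D.d.lam.comp (LinearMap.mulLeft R a), fun z => rfl⟩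
  have h1 : ∑ m, ∑ i, ∑ l, D.T (a * (D.u i * D.x m * D.u' l)) * D.T (D.u l * D.y m * D.u' i * b) =
      L (b - D.j (D.pr b)) := by
    rw [← D.cx b, map_sum]
    refine Finset.sum_congr rfl fun m _ => ?_
    rw [map_sum]
    refine Finset.sum_congr rfl fun i _ => ?_
    rw [map_sum]
    refine Finset.sum_congr rfl fun l _ => ?_
    rw [map_smul, hL, smul_eq_mul, mul_comm]
    rfl
  have h2 : ∑ k, D.T (a * D.u k) * D.T (D.u' k * b) = L (D.j (D.pr b)) := by
    conv_rhs => rw [← D.c.h1 (D.pr b)]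
    rw [map_sum, map_sum]
    refine Finset.sum_congr rfl fun k _ => ?_
    rw [map_smul, map_smul, hL, smul_eq_mul, mul_comm]
    have h3 : D.T (D.u' k * b) = D.c.lam (D.c.b' k * D.pr b) := by
      show D.d.lam (D.j (D.c.b' k) * b) = _
      rw [D.ort, D.pr_l]
    rw [h3]
    rfl
  rw [h1, h2, ← map_add, hL, add_sub_cancel]

/-- the trace with three corners -/
def tr3 (D : Net R B A I J N) (X Y Z : A) (p q w : B) : R :=
  D.T (X * D.j p * Y * D.j q * Z * D.j w)

theorem res : ResStmt := by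
  intro R B A I J N _ _ _ _ _ _ _ _ D f1 f2 f3 f4
  -- the summand
  obtain ⟨Φ, hΦ⟩ : ∃ Φ : B → B → B → B → R, ∀ a b c d,
      Φ a b c d = D.c.lam (f1 a * f2 b * f3 c * f4 d) := ⟨_, fun _ _ _ _ => rfl⟩
  obtain ⟨U, hU⟩ : ∃ U : N → N → N → B → B → B → R, ∀ r s m p q w,
      U r s m p q w = D.T (D.x r * D.j p * D.x s * D.j q * D.x m * D.j w) :=
    ⟨_, fun _ _ _ _ _ _ => rfl⟩
  obtain ⟨V, hV⟩ : ∃ V : N → N → N → B → B → B → R, ∀ r s m p q w,
      V r s m p q w = D.T (D.y r * D.j p * D.y s * D.j q * D.y m * D.j w) :=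
    ⟨_, fun _ _ _ _ _ _ => rfl⟩
  have hT1 : ∀ a b, D.T (a + b) = D.T a + D.T b := fun a b => map_add D.d.lam a b
  have hT2 : ∀ (c : R) a, D.T (c • a) = c * D.T a := fun c a => map_smul D.d.lam c a
  -- linearity
  have Φ2a : ∀ a b b' c d, Φ a (b + b') c d = Φ a b c d + Φ a b' c d := by
    intro a b b' c d
    simp only [hΦ, map_add, mul_add, add_mul]
  have Φ2s : ∀ (t : R) a b c d, Φ a (t • b) c d = t * Φ a b c d := by
    intro t a b c d
    simp only [hΦ, map_smul, mul_smul_comm, smul_mul_assoc, smul_eq_mul]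
  have Φ4a : ∀ a b c d d', Φ a b c (d + d') = Φ a b c d + Φ a b c d' := by
    intro a b c d d'
    simp only [hΦ, map_add, mul_add]
  have Φ4s : ∀ (t : R) a b c d, Φ a b c (t • d) = t * Φ a b c d := by
    intro t a b c d
    simp only [hΦ, map_smul, mul_smul_comm, smul_eq_mul]
  have U2a : ∀ r s m p q q' w, U r s m p (q + q') w = U r s m p q w + U r s m p q' w := by
    intro r s m p q q' w
    simp only [hU, map_add, mul_add, add_mul, hT1]
  have U2s : ∀ r s m (t : R) p q w, U r s m p (t • q) w = t * U r s m p q w := by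
    intro r s m t p q w
    simp only [hU, map_smul, mul_smul_comm, smul_mul_assoc, hT2]
  have U3a : ∀ r s m p q w w', U r s m p q (w + w') = U r s m p q w + U r s m p q w' := by
    intro r s m p q w w'
    simp only [hU, map_add, mul_add, hT1]
  have U3s : ∀ r s m (t : R) p q w, U r s m p q (t • w) = t * U r s m p q w := by
    intro r s m t p q w
    simp only [hU, map_smul, mul_smul_comm, hT2]
  have V2a : ∀ r s m p q q' w, V r s m p (q + q') w = V r s m p q w + V r s m p q' w := by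
    intro r s m p q q' w
    simp only [hV, map_add, mul_add, add_mul, hT1]
  have V2s : ∀ r s m (t : R) p q w, V r s m p (t • q) w = t * V r s m p q w := by
    intro r s m t p q w
    simp only [hV, map_smul, mul_smul_comm, smul_mul_assoc, hT2]
  have V3a : ∀ r s m p q w w', V r s m p q (w + w') = V r s m p q w + V r s m p q w' := by
    intro r s m p q w w'
    simp only [hV, map_add, mul_add, hT1]
  have V3s : ∀ r s m (t : R) p q w, V r s m p q (t • w) = t * V r s m p q w := by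
    intro r s m t p q w
    simp only [hV, map_smul, mul_smul_comm, hT2]
  -- step 1
  have h1 : D.H4 D.x D.y D.x D.y f1 f2 f3 f4 = D.GB f1 f2 f3 f4 +
      ∑ r, ∑ s, ∑ i1, ∑ i2, ∑ i3, ∑ i4, ∑ m, ∑ i, ∑ l,
        Φ (D.c.b' i1) (D.c.b' i2) (D.c.b' i3) (D.c.b' i4) *
          (U r s m (D.c.b i1) (D.c.b i2 * D.c.b i) (D.c.b' l) *
            V r s m (D.c.b i3) (D.c.b i4 * D.c.b l) (D.c.b' i)) := by
    unfold Net.H4 Net.GB
    simp only [← Finset.sum_add_distrib]
    refine Finset.sum_congr rfl fun r _ => Finset.sum_congr rfl fun s _ =>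
      Finset.sum_congr rfl fun i1 _ => Finset.sum_congr rfl fun i2 _ =>
      Finset.sum_congr rfl fun i3 _ => Finset.sum_congr rfl fun i4 _ => ?_
    have h2 : D.T (D.x r * D.u i1 * D.x s * D.u i2 * D.y r * D.u i3 * D.y s * D.u i4) =
        D.T ((D.x r * D.u i1 * D.x s * D.u i2) * (D.y r * D.u i3 * D.y s * D.u i4)) := by
      simp only [mul_assoc]
    rw [h2, T_split, mul_add, Finset.mul_sum]
    refine congrArg₂ (· + ·) ?_ ?_
    · refine Finset.sum_congr rfl fun k _ => ?_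
      simp only [mul_assoc]
    · simp only [Finset.mul_sum]
      refine Finset.sum_congr rfl fun m _ => Finset.sum_congr rfl fun i _ =>
        Finset.sum_congr rfl fun l _ => ?_
      have h3 : D.T (D.x r * D.u i1 * D.x s * D.u i2 * (D.u i * D.x m * D.u' l)) =
          U r s m (D.c.b i1) (D.c.b i2 * D.c.b i) (D.c.b' l) := by
        rw [hU, map_mul]
        simp only [mul_assoc]
        rfl
      have h4 : D.T (D.u l * D.y m * D.u' i * (D.y r * D.u i3 * D.y s * D.u i4)) =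
          V r s m (D.c.b i3) (D.c.b i4 * D.c.b l) (D.c.b' i) := by
        rw [hV, map_mul, T_comm]
        simp only [mul_assoc]
        rfl
      rw [h3, h4]
      show D.w4 f1 f2 f3 f4 _ _ _ _ * _ = _
      rw [hΦ]
      rfl
  have h5 : ∀ r s, ∑ i1, ∑ i2, ∑ i3, ∑ i4, ∑ m, ∑ i, ∑ l,
        Φ (D.c.b' i1) (D.c.b' i2) (D.c.b' i3) (D.c.b' i4) *
          (U r s m (D.c.b i1) (D.c.b i2 * D.c.b i) (D.c.b' l) *
            V r s m (D.c.b i3) (D.c.b i4 * D.c.b l) (D.c.b' i)) =
      ∑ m, ∑ i1, ∑ i2, ∑ i3, ∑ k1, ∑ k2, ∑ k3,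
        Φ (D.c.b' i1) (D.c.b' k3 * D.c.b' i2) (D.c.b' k1) (D.c.b' i3 * D.c.b' k2) *
          (U r s m (D.c.b i1) (D.c.b i2) (D.c.b i3) *
            V r s m (D.c.b k1) (D.c.b k2) (D.c.b k3)) := by
    intro r s
    rw [ord1]
    refine Finset.sum_congr rfl fun m _ => ?_
    -- M2 on the corners 2 and 4
    have h6 : ∀ i l a c, ∑ b, ∑ d, Φ (D.c.b' a) (D.c.b' b) (D.c.b' c) (D.c.b' d) *
          (U r s m (D.c.b a) (D.c.b b * D.c.b i) (D.c.b' l) *
            V r s m (D.c.b c) (D.c.b d * D.c.b l) (D.c.b' i)) =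
        ∑ b, ∑ d, Φ (D.c.b' a) (D.c.b i * D.c.b' b) (D.c.b' c) (D.c.b l * D.c.b' d) *
          (U r s m (D.c.b a) (D.c.b b) (D.c.b' l) *
            V r s m (D.c.b c) (D.c.b d) (D.c.b' i)) := by
      intro i l a c
      rw [m2 D.c D.cs (F := fun p q => ∑ d, Φ (D.c.b' a) q (D.c.b' c) (D.c.b' d) *
          (U r s m (D.c.b a) p (D.c.b' l) *
            V r s m (D.c.b c) (D.c.b d * D.c.b l) (D.c.b' i))) (Bil.sum fun d => by
          constructor
          · intro p p' q; rw [U2a]; ring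
          · intro p q q'; rw [Φ2a]; ring
          · intro t p q; rw [U2s, smul_eq_mul]; ring
          · intro t p q; rw [Φ2s, smul_eq_mul]; ring) (D.c.b i)]
      refine Finset.sum_congr rfl fun b _ => ?_
      rw [m2 D.c D.cs (F := fun p q => Φ (D.c.b' a) (D.c.b i * D.c.b' b) (D.c.b' c) q *
          (U r s m (D.c.b a) (D.c.b b) (D.c.b' l) * V r s m (D.c.b c) p (D.c.b' i))) (by
          constructor
          · intro p p' q; rw [V2a]; ring
          · intro p q q'; rw [Φ4a]; ring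
          · intro t p q; rw [V2s, smul_eq_mul]; ring
          · intro t p q; rw [Φ4s, smul_eq_mul]; ring) (D.c.b l)]
    have h7 : ∑ i, ∑ l, ∑ a, ∑ c, ∑ b, ∑ d, Φ (D.c.b' a) (D.c.b' b) (D.c.b' c) (D.c.b' d) *
          (U r s m (D.c.b a) (D.c.b b * D.c.b i) (D.c.b' l) *
            V r s m (D.c.b c) (D.c.b d * D.c.b l) (D.c.b' i)) =
        ∑ i, ∑ l, ∑ a, ∑ c, ∑ b, ∑ d,
          Φ (D.c.b' a) (D.c.b i * D.c.b' b) (D.c.b' c) (D.c.b l * D.c.b' d) *
          (U r s m (D.c.b a) (D.c.b b) (D.c.b' l) *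
            V r s m (D.c.b c) (D.c.b d) (D.c.b' i)) :=
      Finset.sum_congr rfl fun i _ => Finset.sum_congr rfl fun l _ =>
        Finset.sum_congr rfl fun a _ => Finset.sum_congr rfl fun c _ => h6 i l a c
    rw [h7]
    -- M3 for i
    rw [m3 D.c D.cs (F := fun p q => ∑ l, ∑ a, ∑ c, ∑ b, ∑ d,
          Φ (D.c.b' a) (p * D.c.b' b) (D.c.b' c) (D.c.b l * D.c.b' d) *
          (U r s m (D.c.b a) (D.c.b b) (D.c.b' l) * V r s m (D.c.b c) (D.c.b d) q))
        (Bil.sum fun l => Bil.sum fun a => Bil.sum fun c => Bil.sum fun b => Bil.sum fun d => by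
          constructor
          · intro p p' q; rw [add_mul, Φ2a]; ring
          · intro p q q'; rw [V3a]; ring
          · intro t p q; rw [smul_mul_assoc, Φ2s, smul_eq_mul]; ring
          · intro t p q; rw [V3s, smul_eq_mul]; ring)]
    -- M3 for l
    have h8 : ∀ i, ∑ l, ∑ a, ∑ c, ∑ b, ∑ d,
          Φ (D.c.b' a) (D.c.b' i * D.c.b' b) (D.c.b' c) (D.c.b l * D.c.b' d) *
          (U r s m (D.c.b a) (D.c.b b) (D.c.b' l) * V r s m (D.c.b c) (D.c.b d) (D.c.b i)) =
        ∑ l, ∑ a, ∑ c, ∑ b, ∑ d,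
          Φ (D.c.b' a) (D.c.b' i * D.c.b' b) (D.c.b' c) (D.c.b' l * D.c.b' d) *
          (U r s m (D.c.b a) (D.c.b b) (D.c.b l) * V r s m (D.c.b c) (D.c.b d) (D.c.b i)) := by
      intro i
      exact m3 D.c D.cs (F := fun p q => ∑ a, ∑ c, ∑ b, ∑ d,
          Φ (D.c.b' a) (D.c.b' i * D.c.b' b) (D.c.b' c) (p * D.c.b' d) *
          (U r s m (D.c.b a) (D.c.b b) q * V r s m (D.c.b c) (D.c.b d) (D.c.b i)))
        (Bil.sum fun a => Bil.sum fun c => Bil.sum fun b => Bil.sum fun d => by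
          constructor
          · intro p p' q; rw [add_mul, Φ4a]; ring
          · intro p q q'; rw [U3a]; ring
          · intro t p q; rw [smul_mul_assoc, Φ4s, smul_eq_mul]; ring
          · intro t p q; rw [U3s, smul_eq_mul]; ring)
    rw [Finset.sum_congr rfl fun i _ => h8 i, ord2]
  rw [h1]
  refine congrArg₂ (· + ·) rfl ?_
  unfold Net.G6
  refine Finset.sum_congr rfl fun r _ => Finset.sum_congr rfl fun s _ => ?_
  rw [h5]
  simp only [hΦ, hU, hV]
  rfl

end main

end Pool.Agent.PFD.H48
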